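import Pool.Agent.Q163.BC.Tail

set_option autoImplicit false

/-!
# Sign patterns after random changes at any infinite set of primes

Let `P` be a set of primes and let `χ` be the random completely multiplicative function with
independent fair signs at the primes of `P` and the value `1` at the other primes.

* If `P` is infinite, however thin, then for every function `g : ℕ → {-1, 1}`, almost surely every
  sign pattern of every length occurs in `g χ`, with positive upper density and in every residue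
  class. If `P` is finite this fails for `g = 1` and EVERY choice of the signs.
* So the Liouville function changed at the primes of `P` into random signs almost surely has full
  block complexity `2 ^ n`.
* The first occurrences are bounded in terms of the counting function of `P`.
* The full block complexity of a completely multiplicative function does not depend on its values at
  finitely many primes.
-/

namespace Pool.Agent.Results.MP_4fffd4_nt.AnyInfiniteSet

open Finset Filter Topology MeasureTheory ProbabilityTheory Pool.Agent.Q163.RP Pool.Agent.Q163.RX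
  Pool.Agent.Q163.BC

open Classical in
/-- the completely multiplicative function with the value `1` or `-1` at the primes `p ∈ P`,
according to `ω p`, and the value `c` at the other primes -/
noncomputable def change (P : Set ℕ) (c : ℝ) (ω : ℕ → Bool) (n : ℕ) : ℝ :=
  ∏ p ∈ n.primeFactors, (if p ∈ P then (if ω p = true then 1 else -1) else c) ^ n.factorization p

open Classical in
/-- the number of primes of `P` in the interval `(a, b]` -/
noncomputable def cnt (P : Set ℕ) (a b : ℕ) : ℕ := ((Ioc a b).filter fun p => p ∈ P ∧ p.Prime).card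

/-- every sign pattern of every length occurs in `f` -/
def Full (f : ℕ → ℝ) : Prop := ∀ n, ∀ w : Fin n → Bool, ∃ m, Occurs f w m

/-- every sign pattern of every length occurs in `f`, with positive upper density among the starting
points in every residue class -/
def FullPos (f : ℕ → ℝ) : Prop := ∀ n, ∀ w : Fin n → Bool, ∀ q a, a < q →
  Pos fun m => Occurs f w m ∧ m % q = a

lemma change_one (P : Set ℕ) (g : ℕ → ℝ) (ω : ℕ → Bool) :
    (fun x => g x * change P 1 ω x) = rv P g ω := rfl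

lemma exists_of_pos {S : ℕ → Prop} (h : Pos S) : ∃ m, S m := by
  classical
  obtain ⟨c, hc, h1⟩ := h
  obtain ⟨N, hN, h2⟩ := (frequently_atTop.1 h1) 1
  by_contra hno
  push Not at hno
  have h3 : ((range N).filter S).card = 0 := by
    rw [card_eq_zero]
    exact Finset.filter_eq_empty_iff.2 fun m _ => hno m
  have h4 : (0 : ℝ) < N := by exact_mod_cast (by omega : 0 < N)
  have h5 : c * N ≤ (((range N).filter S).card : ℝ) := by
    refine h2.trans (le_of_eq ?_)
    congr
  rw [h3, Nat.cast_zero] at h5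
  have h6 : 0 < c * N := mul_pos hc h4
  linarith

lemma full_of_pos {f : ℕ → ℝ} (h : FullPos f) : Full f := fun n w => by
  obtain ⟨m, hm⟩ := exists_of_pos (h n w 1 0 one_pos)
  exact ⟨m, hm.1⟩

theorem infinite_set (P : Set ℕ) (hP : {p | p ∈ P ∧ p.Prime}.Infinite) (g : ℕ → ℝ)
    (hg : ∀ n, g n = 1 ∨ g n = -1) : ∀ᵐ ω ∂cm, FullPos fun x => g x * change P 1 ω x := by
  simp only [change_one]
  unfold FullPos
  rw [ae_all_iff]
  intro n
  rw [ae_all_iff]
  intro w
  rw [ae_all_iff]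
  intro q
  by_cases hq : 1 ≤ q
  · have h1 := density P hP g hg (q * (1 + q * n))
      (Nat.mul_pos hq (by omega)) (big q w)
    filter_upwards [h1] with ω hω a ha
    exact pos_class _ q a ha w hω
  · exact Eventually.of_forall fun ω a ha => absurd ha (by omega)

/-- finitely many primes: a pattern which never occurs, whatever the signs -/
theorem finite_set (P : Set ℕ) (hP : {p | p ∈ P ∧ p.Prime}.Finite) :
    ∃ n, ∀ ω : ℕ → Bool, ∀ m, ¬ Occurs (change P 1 ω) (fun _ : Fin n => false) m := by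
  classical
  set S := hP.toFinset with hS
  have hSp : ∀ p ∈ S, p.Prime := fun p hp => (hP.mem_toFinset.1 hp).2
  have h0 : 0 < ∏ p ∈ S, p := Finset.prod_pos fun p hp => (hSp p hp).pos
  refine ⟨∏ p ∈ S, p, fun ω m hocc => ?_⟩
  have hm : m % ∏ p ∈ S, p < ∏ p ∈ S, p := Nat.mod_lt _ h0
  set M := ∏ p ∈ S, p with hM
  have hj : (M - m % M) % M < M := Nat.mod_lt _ h0
  have h1 := hocc ⟨(M - m % M) % M, hj⟩
  simp only [Bool.false_eq_true, if_false] at h1
  have h2 : M ∣ m + (M - m % M) % M := by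
    rw [Nat.dvd_iff_mod_eq_zero, Nat.add_mod, Nat.mod_mod, ← Nat.add_mod]
    have h3 : m + (M - m % M) = M * (m / M + 1) := by
      have h4 := Nat.div_add_mod m M
      rw [Nat.mul_add, Nat.mul_one]
      omega
    rw [h3, Nat.mul_mod_right]
  have h3 : change P 1 ω (m + (M - m % M) % M + 1) = 1 := by
    unfold change
    refine Finset.prod_eq_one fun p hp => ?_
    have hpp := Nat.prime_of_mem_primeFactors hp
    have hpd := Nat.dvd_of_mem_primeFactors hp
    have hpP : p ∉ P := by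
      intro h4
      have h5 : p ∈ S := hP.mem_toFinset.2 ⟨h4, hpp⟩
      have h6 : p ∣ M := Finset.dvd_prod_of_mem (fun p => p) h5
      have h7 := (Nat.dvd_add_right (h6.trans h2)).1 hpd
      exact hpp.one_lt.ne' (Nat.dvd_one.1 h7)
    rw [if_neg hpP, one_pow]
  rw [h3] at h1
  norm_num at h1

lemma change_neg (P : Set ℕ) (ω : ℕ → Bool) : change P (-1) ω =
    fun x => mult (fun p => by classical exact if p ∈ P then 1 else -1) x * change P 1 ω x := by
  classical
  funext n
  unfold change mult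
  rw [← Finset.prod_mul_distrib]
  refine Finset.prod_congr rfl fun p _ => ?_
  rw [← mul_pow]
  by_cases hp : p ∈ P
  · simp only [if_pos hp, one_mul]
  · simp only [if_neg hp, mul_one]

theorem liouville (P : Set ℕ) (hP : {p | p ∈ P ∧ p.Prime}.Infinite) :
    ∀ᵐ ω ∂cm, FullPos (change P (-1) ω) := by
  have h1 := infinite_set P hP (fun x => mult (fun p => by classical exact if p ∈ P then 1 else -1) x)
    (fun n => (abs_eq zero_le_one).1 (abs_mult _ (fun p => by split_ifs <;> simp) n))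
  filter_upwards [h1] with ω hω
  rw [change_neg]
  exact hω

theorem first (P : Set ℕ) (g : ℕ → ℝ) (hg : ∀ n, g n = 1 ∨ g n = -1) (n x : ℕ) (hn : 1 ≤ n)
    (h : 10 * n ^ 3 ≤ cnt P (12 * n ^ 4) x) :
    (cm {ω | ∃ w : Fin n → Bool, ∀ m < x ^ (n + 1),
      ¬ Occurs (fun x => g x * change P 1 ω x) w m}).toReal ≤ (1 / 8) ^ n := by
  classical
  simp only [change_one]
  refine quant P g hg n hn x ((Ioc (12 * n ^ 4) x).filter fun p => p ∈ P ∧ p.Prime) ?_ ?_
  · intro r hr
    rw [mem_filter, mem_Ioc] at hr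
    exact ⟨hr.2.1, hr.2.2, hr.1.1, hr.1.2⟩
  · refine h.trans (le_of_eq ?_)
    unfold cnt
    congr

theorem first_ae (P : Set ℕ) (g : ℕ → ℝ) (hg : ∀ n, g n = 1 ∨ g n = -1) (X : ℕ → ℕ)
    (h : ∀ᶠ n : ℕ in atTop, 10 * n ^ 3 ≤ cnt P (12 * n ^ 4) (X n)) :
    ∀ᵐ ω ∂cm, ∀ᶠ n : ℕ in atTop, ∀ w : Fin n → Bool, ∃ m < X n ^ (n + 1),
      Occurs (fun x => g x * change P 1 ω x) w m := by
  obtain ⟨n0, hn0⟩ := eventually_atTop.1 h
  set s : ℕ → Set (ℕ → Bool) := fun n => {ω | max n0 1 ≤ n ∧ ∃ w : Fin n → Bool,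
    ∀ m < X n ^ (n + 1), ¬ Occurs (fun x => g x * change P 1 ω x) w m} with hs
  have h1 : ∀ n, cm (s n) ≤ ENNReal.ofReal ((1 / 8) ^ n) := by
    intro n
    by_cases hn : max n0 1 ≤ n
    · have h2 := first P g hg n (X n) (le_trans (le_max_right _ _) hn)
        (hn0 n (le_trans (le_max_left _ _) hn))
      have h3 : s n = {ω | ∃ w : Fin n → Bool, ∀ m < X n ^ (n + 1),
          ¬ Occurs (fun x => g x * change P 1 ω x) w m} := by
        ext ω
        simp only [hs, Set.mem_ofPred_eq]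
        exact ⟨fun h4 => h4.2, fun h4 => ⟨hn, h4⟩⟩
      rw [h3]
      exact (ENNReal.le_ofReal_iff_toReal_le (measure_lt_top _ _).ne (by positivity)).2 h2
    · have h3 : s n = ∅ := by
        ext ω
        simp only [hs, Set.mem_ofPred_eq, Set.mem_empty_iff_false, iff_false, not_and]
        exact fun h4 => absurd h4 hn
      rw [h3, measure_empty]
      exact zero_le
  have h2 : ∑' n, cm (s n) ≠ ⊤ := by
    have hsum : Summable fun n : ℕ => ((1 / 8 : ℝ)) ^ n :=
      summable_geometric_of_lt_one (by norm_num) (by norm_num)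
    refine ne_top_of_le_ne_top ?_ (ENNReal.tsum_le_tsum h1)
    rw [← ENNReal.ofReal_tsum_of_nonneg (fun n => by positivity) hsum]
    exact ENNReal.ofReal_ne_top
  filter_upwards [ae_eventually_notMem h2] with ω hω
  filter_upwards [hω, eventually_ge_atTop (max n0 1)] with n h3 h4
  simp only [hs, Set.mem_ofPred_eq, not_and, not_exists, not_forall, not_not] at h3
  intro w
  obtain ⟨m, hm, h5⟩ := h3 h4 w
  exact ⟨m, hm, h5⟩

lemma cnt_split (P : Set ℕ) (a b : ℕ) : cnt P 0 b ≤ a + cnt P a b := by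
  classical
  unfold cnt
  have h1 : (Ioc 0 b).filter (fun p => p ∈ P ∧ p.Prime) ⊆
      (Ioc 0 a) ∪ (Ioc a b).filter (fun p => p ∈ P ∧ p.Prime) := by
    intro p hp
    rw [mem_filter, mem_Ioc] at hp
    rw [mem_union, mem_filter, mem_Ioc, mem_Ioc]
    rcases le_or_gt p a with h2 | h2
    · exact Or.inl ⟨hp.1.1, h2⟩
    · exact Or.inr ⟨⟨h2, hp.1.2⟩, hp.2⟩
  calc ((Ioc 0 b).filter fun p => p ∈ P ∧ p.Prime).card
      ≤ ((Ioc 0 a) ∪ (Ioc a b).filter (fun p => p ∈ P ∧ p.Prime)).card := card_le_card h1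
    _ ≤ (Ioc 0 a).card + ((Ioc a b).filter (fun p => p ∈ P ∧ p.Prime)).card := card_union_le _ _
    _ = a + ((Ioc a b).filter (fun p => p ∈ P ∧ p.Prime)).card := by simp

theorem power (P : Set ℕ) (δ : ℝ) (hδ : 0 < δ) (h : ∀ᶠ x : ℕ in atTop, (x : ℝ) ^ δ ≤ cnt P 0 x) :
    ∃ C : ℕ, ∀ g : ℕ → ℝ, (∀ n, g n = 1 ∨ g n = -1) → ∀ᵐ ω ∂cm, ∀ᶠ n : ℕ in atTop,
      ∀ w : Fin n → Bool, ∃ m < n ^ (C * n), Occurs (fun x => g x * change P 1 ω x) w m := by
  set k : ℕ := ⌈6 / δ⌉₊ with hk
  have hk6 : 6 ≤ k * δ := by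
    have h1 : 6 / δ ≤ k := Nat.le_ceil _
    rwa [div_le_iff₀ hδ] at h1
  have hk1 : 1 ≤ k := Nat.ceil_pos.2 (by positivity)
  refine ⟨2 * k, fun g hg => ?_⟩
  have hX : ∀ᶠ n : ℕ in atTop, 10 * n ^ 3 ≤ cnt P (12 * n ^ 4) (n ^ k) := by
    have ht : Tendsto (fun n : ℕ => n ^ k) atTop atTop := tendsto_pow_atTop (by omega)
    filter_upwards [ht.eventually h, eventually_ge_atTop 5] with n hn hn5
    have h1 := cnt_split P (12 * n ^ 4) (n ^ k)
    have hn1 : (1 : ℝ) ≤ n := by exact_mod_cast (by omega : 1 ≤ n)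
    have h2 : ((n : ℝ)) ^ (6 : ℕ) ≤ ((n ^ k : ℕ) : ℝ) ^ δ := by
      push_cast
      rw [← Real.rpow_natCast, ← Real.rpow_natCast, ← Real.rpow_mul (by linarith)]
      exact Real.rpow_le_rpow_of_exponent_le hn1 (by push_cast; exact hk6)
    have h3 : (n : ℝ) ^ 6 ≤ ((12 * n ^ 4 + cnt P (12 * n ^ 4) (n ^ k) : ℕ) : ℝ) :=
      h2.trans (hn.trans (by exact_mod_cast h1))
    have h4 : n ^ 6 ≤ 12 * n ^ 4 + cnt P (12 * n ^ 4) (n ^ k) := by exact_mod_cast h3
    have h5 : 12 * n ^ 4 + 10 * n ^ 3 ≤ n ^ 6 := by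
      have h6 : n ^ 6 = n ^ 4 * (n * n) := by ring
      have h7 : n ^ 4 = n ^ 3 * n := by ring
      have h8 : n ^ 3 ≤ n ^ 4 := Nat.pow_le_pow_right (by omega) (by norm_num)
      have h9 : 25 ≤ n * n := Nat.mul_le_mul hn5 hn5
      have h10 : n ^ 4 * 25 ≤ n ^ 4 * (n * n) := Nat.mul_le_mul_left _ h9
      omega
    omega
  filter_upwards [first_ae P g hg (fun n => n ^ k) hX] with ω hω
  filter_upwards [hω, eventually_ge_atTop 1] with n h1 h2 w
  obtain ⟨m, hm, h3⟩ := h1 w
  refine ⟨m, hm.trans_le ?_, h3⟩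
  rw [← pow_mul]
  exact Nat.pow_le_pow_right (by omega) (by nlinarith)

/-- **Random changes at any infinite set of primes give every sign pattern.** -/
theorem result :
    -- (1) infinite sets: all patterns, positive upper density in every class
    (∀ P : Set ℕ, {p | p ∈ P ∧ p.Prime}.Infinite →
      (∀ g : ℕ → ℝ, (∀ n, g n = 1 ∨ g n = -1) →
        ∀ᵐ ω ∂cm, FullPos fun x => g x * change P 1 ω x) ∧
      (∀ᵐ ω ∂cm, FullPos (change P (-1) ω)) ∧
      ∃ f : ℕ → ℝ, (∀ n, f n = 1 ∨ f n = -1) ∧ (∀ m n, 1 ≤ m → 1 ≤ n → f (m * n) = f m * f n) ∧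
        (∀ p : ℕ, p.Prime → p ∉ P → f p = -1) ∧ FullPos f) ∧
    -- (2) the exact condition
    (∀ P : Set ℕ, {p | p ∈ P ∧ p.Prime}.Infinite ↔ ∀ g : ℕ → ℝ, (∀ n, g n = 1 ∨ g n = -1) →
      ∀ᵐ ω ∂cm, Full fun x => g x * change P 1 ω x) ∧
    -- (3) finite sets: one pattern is missed for every choice of the signs
    (∀ P : Set ℕ, ¬ {p | p ∈ P ∧ p.Prime}.Infinite →
      ∃ n, ∀ ω : ℕ → Bool, ∀ m, ¬ Occurs (change P 1 ω) (fun _ : Fin n => false) m) ∧
    -- (4) the probability that a pattern of length `n` is missed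
    (∀ (P : Set ℕ) (g : ℕ → ℝ), (∀ n, g n = 1 ∨ g n = -1) → ∀ n x : ℕ, 1 ≤ n →
      10 * n ^ 3 ≤ cnt P (12 * n ^ 4) x →
      (cm {ω | ∃ w : Fin n → Bool, ∀ m < x ^ (n + 1),
        ¬ Occurs (fun x => g x * change P 1 ω x) w m}).toReal ≤ (1 / 8) ^ n) ∧
    -- (5) the first occurrences, almost surely
    (∀ (P : Set ℕ) (X : ℕ → ℕ), (∀ᶠ n : ℕ in atTop, 10 * n ^ 3 ≤ cnt P (12 * n ^ 4) (X n)) →
      ∀ g : ℕ → ℝ, (∀ n, g n = 1 ∨ g n = -1) → ∀ᵐ ω ∂cm, ∀ᶠ n : ℕ in atTop,
        ∀ w : Fin n → Bool, ∃ m < X n ^ (n + 1), Occurs (fun x => g x * change P 1 ω x) w m) ∧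
    (∀ (P : Set ℕ) (δ : ℝ), 0 < δ → (∀ᶠ x : ℕ in atTop, (x : ℝ) ^ δ ≤ cnt P 0 x) →
      ∃ C : ℕ, ∀ g : ℕ → ℝ, (∀ n, g n = 1 ∨ g n = -1) → ∀ᵐ ω ∂cm, ∀ᶠ n : ℕ in atTop,
        ∀ w : Fin n → Bool, ∃ m < n ^ (C * n), Occurs (fun x => g x * change P 1 ω x) w m) ∧
    -- (6) the values at finitely many primes do not matter
    (∀ f f' : ℕ → ℝ, (∀ n, f n = 1 ∨ f n = -1) → (∀ n, f' n = 1 ∨ f' n = -1) →
      (∀ a b, 1 ≤ a → 1 ≤ b → f (a * b) = f a * f b) →
      (∀ a b, 1 ≤ a → 1 ≤ b → f' (a * b) = f' a * f' b) →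
      {p : ℕ | p.Prime ∧ f p ≠ f' p}.Finite → (Full f ↔ Full f')) := by
  have hne : ∀ p : (ℕ → Bool) → Prop, (∀ᵐ ω ∂cm, p ω) → ∃ ω, p ω := fun p h => h.exists
  have key : ∀ P : Set ℕ, ¬ {p | p ∈ P ∧ p.Prime}.Infinite →
      ∃ n, ∀ ω : ℕ → Bool, ∀ m, ¬ Occurs (change P 1 ω) (fun _ : Fin n => false) m :=
    fun P hP => finite_set P (Set.not_infinite.1 hP)
  refine ⟨fun P hP => ⟨infinite_set P hP, liouville P hP, ?_⟩, fun P => ⟨fun hP g hg => ?_,
    fun h => ?_⟩, key, fun P g hg n x hn h => first P g hg n x hn h,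
    fun P X hX g hg => first_ae P g hg X hX, fun P δ hδ h => power P δ hδ h,
    fun f f' hf hf' hm hm' hS => ⟨finite_change f f' hf hf' hm hm' hS,
      finite_change f' f hf' hf hm' hm ?_⟩⟩
  · obtain ⟨ω, hω⟩ := hne _ (liouville P hP)
    classical
    have hcc : ∀ p, |if p ∈ P then (if ω p = true then 1 else -1) else (-1 : ℝ)| = 1 := by
      intro p
      split_ifs <;> simp
    have he : change P (-1) ω =
        mult (fun p => if p ∈ P then (if ω p = true then 1 else -1) else (-1 : ℝ)) := by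
      funext n
      unfold change mult
      refine Finset.prod_congr rfl fun p _ => ?_
      congr
    refine ⟨change P (-1) ω, fun n => ?_, fun m n hm hn => ?_, fun p hp hpP => ?_, hω⟩
    · rw [he]
      exact (abs_eq zero_le_one).1 (abs_mult _ hcc n)
    · rw [he]
      exact mult_mul _ (by omega) (by omega)
    · unfold change
      rw [hp.primeFactors, Finset.prod_singleton, hp.factorization_self, pow_one]
      exact if_neg hpP
  · filter_upwards [infinite_set P hP g hg] with ω hω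
    exact full_of_pos hω
  · by_contra hP
    obtain ⟨n, hn⟩ := key P hP
    obtain ⟨ω, hω⟩ := hne _ (h (fun _ => 1) fun _ => Or.inl rfl)
    obtain ⟨m, hm⟩ := hω n (fun _ => false)
    refine hn ω m ?_
    simpa only [one_mul] using hm
  · refine hS.subset ?_
    rintro p ⟨hp, hp2⟩
    exact ⟨hp, hp2.symm⟩

end Pool.Agent.Results.MP_4fffd4_nt.AnyInfiniteSet
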