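import Mathlib
import Pool.Agent.Q163.RX.Crit

set_option autoImplicit false

/-!
# Products of consecutive Liouville values after random changes at few primes: all lengths up to a
power, all short intervals

Let `P` be a set of primes and `u : ℕ → ℕ` with `u N ≥ (log N) ^ 12` such that the sum `mass P u N`
of `1/p` over the primes `p ∈ P` with `u N < p ≤ N` tends to infinity with `N`. Change the Liouville
function at the primes of `P` into independent random signs. Almost surely, for all large `N`, all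
the intervals `(x, x + N]` with `x ≤ exp (u N ^ (1/4))` and all nonempty sets `H` of shifts contained
in `[0, h)`, `h ≤ u N ^ (1/4)`, the sum of `∏ j ∈ H, f (n + j)` over the interval is at most
`8 N / mass P u N` in absolute value.

For sets of primes of positive relative logarithmic density every `u` with `log u = o (log N)` is
allowed: the lengths `h` of the products reach `N ^ o(1)`, and the intervals near `x` may be as short
as `(log x) ^ ω` with `ω → ∞` arbitrarily slowly.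
-/

namespace Pool.Agent.Results.MP_4fffd4_nt.RandomWindows

open Finset Filter Topology MeasureTheory ProbabilityTheory Pool.Agent.Q163.RX

open Classical in
/-- the Liouville function changed at the primes of `P`: the completely multiplicative function with
the value `1` at the primes `p ∈ P` with `ω p = true` and `-1` at all other primes -/
noncomputable def lam (P : Set ℕ) (ω : ℕ → Bool) (n : ℕ) : ℝ :=
  ∏ p ∈ n.primeFactors, (if p ∈ P then (if ω p = true then 1 else -1) else -1 : ℝ) ^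
    n.factorization p

lemma lam_eq (P : Set ℕ) (ω : ℕ → Bool) : lam P ω = rmf P (-1) ω := rfl

lemma lam_pm (P : Set ℕ) (ω : ℕ → Bool) (n : ℕ) : lam P ω n = 1 ∨ lam P ω n = -1 := by
  rw [lam_eq]
  have := abs_rmf P (c := -1) (by simp) ω n
  exact (abs_eq zero_le_one).1 this

lemma lam_mul (P : Set ℕ) (ω : ℕ → Bool) (m n : ℕ) (hm : 1 ≤ m) (hn : 1 ≤ n) :
    lam P ω (m * n) = lam P ω m * lam P ω n := by
  rw [lam_eq]
  unfold rmf
  exact Pool.Agent.Q163.RP.mult_mul _ (by omega) (by omega)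

lemma lam_prod (P : Set ℕ) (ω : ℕ → Bool) (H : Finset ℕ) (g : ℕ → ℕ) (hg : ∀ j ∈ H, g j ≠ 0) :
    ∏ j ∈ H, lam P ω (g j) = lam P ω (∏ j ∈ H, g j) := by
  rw [lam_eq]
  unfold rmf
  exact (Pool.Agent.Q163.RP.mult_prod _ _ _ hg).symm

theorem correlations (P : Set ℕ) (u : ℕ → ℕ) (hP : Tendsto (mass P u) atTop atTop)
    (hu : ∀ᶠ N : ℕ in atTop, Real.log N ^ 12 ≤ u N)
    (W : ℕ → ℕ → Finset ℕ → ℕ → ℝ) (hW : ∀ N x H n, |W N x H n| ≤ 1) :
    ∀ᵐ ω ∂cm, ∀ᶠ N : ℕ in atTop, ∀ x h : ℕ, (x : ℝ) ≤ Real.exp ((u N : ℝ) ^ (1 / 4 : ℝ)) →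
      h ^ 4 ≤ u N → ∀ H : Finset ℕ, H ⊆ range h → H.Nonempty →
      |∑ n ∈ Ioc x (x + N), W N x H n * ∏ j ∈ H, lam P ω (n + j)| ≤ 8 * N / mass P u N := by
  have h1 := windows P u hP hu
    (fun N x H n => W N x H (x + n) * rmf P (-1) (fun _ => true) (∏ j ∈ H, (x + n + j)))
    (fun N x H n => by
      rw [abs_mul, abs_rmf P (by simp), mul_one]
      exact hW _ _ _ _)
  filter_upwards [h1] with ω hω
  filter_upwards [hω] with N h2 x h hx hh H hH hne
  refine le_trans (le_of_eq ?_) (h2 x h hx hh H hH hne)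
  congr 1
  have h3 : Ioc x (x + N) = (Icc 1 N).image (fun n => x + n) := by
    ext m
    simp only [Finset.mem_Ioc, Finset.mem_image, Finset.mem_Icc]
    constructor
    · rintro ⟨h4, h5⟩
      exact ⟨m - x, ⟨by omega, by omega⟩, by omega⟩
    · rintro ⟨n, ⟨h4, h5⟩, rfl⟩
      omega
  rw [h3, Finset.sum_image (fun a _ b _ hab => by simpa using hab)]
  refine Finset.sum_congr rfl fun n hn => ?_
  have hn1 := (Finset.mem_Icc.1 hn).1
  rw [lam_prod P ω H (fun j => x + n + j) (fun j _ => by omega), lam_eq, rmf_eq]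
  ring

theorem frequencies (P : Set ℕ) (u : ℕ → ℕ) (hP : Tendsto (mass P u) atTop atTop)
    (hu : ∀ᶠ N : ℕ in atTop, Real.log N ^ 12 ≤ u N) :
    ∀ᵐ ω ∂cm, ∀ᶠ N : ℕ in atTop, ∀ x l : ℕ, (x : ℝ) ≤ Real.exp ((u N : ℝ) ^ (1 / 4 : ℝ)) →
      l ^ 4 ≤ u N → ∀ s : ℕ → ℝ, (∀ j, s j = 1 ∨ s j = -1) →
      |((((Ioc x (x + N)).filter fun n => ∀ j ∈ range l, lam P ω (n + j) = s j).card : ℕ) : ℝ) -
        N / 2 ^ l| ≤ 8 * N / mass P u N := by
  have h1 := correlations P u hP hu (fun _ _ _ _ => 1) (fun _ _ _ _ => by simp)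
  filter_upwards [h1] with ω hω
  filter_upwards [hω, hP.eventually_gt_atTop 0] with N h2 hm x l hx hl s hs
  rcases patterns (lam P ω) (lam_pm P ω) x N l (8 * N / mass P u N) (fun H hH hne => by
    have := h2 x l hx hl H hH hne
    simpa only [one_mul] using this) s hs with h3 | h3
  · exact h3
  · exfalso
    have : (0 : ℝ) ≤ 8 * N / mass P u N := by positivity
    linarith

open Classical in
/-- **Random changes of the Liouville function at few primes: products over windows.** -/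
theorem result :
    -- (1) correlations, with given bounded weights
    (∀ (P : Set ℕ) (u : ℕ → ℕ), Tendsto (mass P u) atTop atTop →
      (∀ᶠ N : ℕ in atTop, Real.log N ^ 12 ≤ u N) →
      ∀ W : ℕ → ℕ → Finset ℕ → ℕ → ℝ, (∀ N x H n, |W N x H n| ≤ 1) →
      ∀ᵐ ω ∂cm, ∀ᶠ N : ℕ in atTop, ∀ x h : ℕ, (x : ℝ) ≤ Real.exp ((u N : ℝ) ^ (1 / 4 : ℝ)) →
        h ^ 4 ≤ u N → ∀ H : Finset ℕ, H ⊆ range h → H.Nonempty →
        |∑ n ∈ Ioc x (x + N), W N x H n * ∏ j ∈ H, lam P ω (n + j)| ≤ 8 * N / mass P u N) ∧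
    -- (2) frequencies of sign patterns
    (∀ (P : Set ℕ) (u : ℕ → ℕ), Tendsto (mass P u) atTop atTop →
      (∀ᶠ N : ℕ in atTop, Real.log N ^ 12 ≤ u N) →
      ∀ᵐ ω ∂cm, ∀ᶠ N : ℕ in atTop, ∀ x l : ℕ, (x : ℝ) ≤ Real.exp ((u N : ℝ) ^ (1 / 4 : ℝ)) →
        l ^ 4 ≤ u N → ∀ s : ℕ → ℝ, (∀ j, s j = 1 ∨ s j = -1) →
        |((((Ioc x (x + N)).filter fun n => ∀ j ∈ range l, lam P ω (n + j) = s j).card : ℕ) : ℝ) -
          N / 2 ^ l| ≤ 8 * N / mass P u N) ∧
    -- (3) functions which agree with the Liouville function at all primes outside of `P`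
    (∀ (P : Set ℕ) (u : ℕ → ℕ), Tendsto (mass P u) atTop atTop →
      (∀ᶠ N : ℕ in atTop, Real.log N ^ 12 ≤ u N) →
      ∃ f : ℕ → ℝ, (∀ n, f n = 1 ∨ f n = -1) ∧ (∀ m n, 1 ≤ m → 1 ≤ n → f (m * n) = f m * f n) ∧
        (∀ p : ℕ, p.Prime → p ∉ P → f p = -1) ∧
        ∀ᶠ N : ℕ in atTop, ∀ x h : ℕ, (x : ℝ) ≤ Real.exp ((u N : ℝ) ^ (1 / 4 : ℝ)) →
          h ^ 4 ≤ u N → ∀ H : Finset ℕ, H ⊆ range h → H.Nonempty →
          |∑ n ∈ Ioc x (x + N), ∏ j ∈ H, f (n + j)| ≤ 8 * N / mass P u N) ∧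
    -- (4) the condition for sets of positive relative logarithmic density, and for all primes
    ((∀ (P : Set ℕ) (δ C : ℝ), 0 < δ →
      (∀ y x : ℕ, 3 ≤ y → y ≤ x → δ * Real.log (Real.log x / Real.log y) - C ≤
        ∑ p ∈ (Ioc y x).filter (fun p => p.Prime ∧ p ∈ P), (1 : ℝ) / p) →
      ∀ u : ℕ → ℕ, (∀ᶠ N : ℕ in atTop, 3 ≤ u N) →
        Tendsto (fun N : ℕ => Real.log (u N) / Real.log N) atTop (𝓝 0) →
        Tendsto (mass P u) atTop atTop) ∧
      ∀ u : ℕ → ℕ, (∀ᶠ N : ℕ in atTop, 3 ≤ u N) →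
        Tendsto (fun N : ℕ => Real.log (u N) / Real.log N) atTop (𝓝 0) →
        Tendsto (mass Set.univ u) atTop atTop) := by
  refine ⟨correlations, frequencies, fun P u hP hu => ?_, fun P δ C hδ h u hu3 hu =>
    mass_crit P δ C hδ h u hu3 hu, fun u hu3 hu => ?_⟩
  · have h1 := correlations P u hP hu (fun _ _ _ _ => 1) (fun _ _ _ _ => by simp)
    obtain ⟨ω, hω⟩ := h1.exists
    refine ⟨lam P ω, lam_pm P ω, lam_mul P ω, ?_, ?_⟩
    · intro p hp hpP
      unfold lam
      rw [hp.primeFactors, Finset.prod_singleton, hp.factorization_self, pow_one]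
      exact if_neg hpP
    · filter_upwards [hω] with N h2 x h hx hh H hH hne
      have := h2 x h hx hh H hH hne
      simpa only [one_mul] using this
  · obtain ⟨C, hC⟩ := mertens_all
    refine mass_crit Set.univ 1 C one_pos (fun y x hy hyx => ?_) u hu3 hu
    have h1 := hC y x hy hyx
    rw [one_mul]
    refine h1.trans (le_of_eq (Finset.sum_congr ?_ fun _ _ => rfl))
    ext p
    simp

end Pool.Agent.Results.MP_4fffd4_nt.RandomWindows
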