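import Pool.Agent.Q163.PW.All

set_option autoImplicit false

/-!
# All sign patterns of a random multiplicative function, at the sharp scale

Let `χ` be the random completely multiplicative function with independent fair signs at all primes and let `g`
be any fixed sequence of signs (for instance `1` or the Liouville function). Almost surely every word of length
`k` occurs in `g χ` in EVERY interval of length `H ≥ 2 ^ k exp (C (log log H) ^ 2)` inside
`[1, exp ((log H) ^ E)]`, with at least `(1 - (log H) ^ -A) H / 2 ^ k` occurrences. Intervals shorter than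
`2 ^ k` never contain all words.
-/

namespace Pool.Agent.Results.MP_4fffd4_nt.SharpWaitingTimes

open Finset Filter Topology MeasureTheory Pool.Agent.Q163.RP Pool.Agent.Q163.RX
  Pool.Agent.Q163.GC Pool.Agent.Q163.HC Pool.Agent.Q163.EX Pool.Agent.Q163.PW

/-- `f` is completely multiplicative with values `1` and `-1` -/
def CM (f : ℕ → ℝ) : Prop :=
  f 1 = 1 ∧ (∀ m n : ℕ, m ≠ 0 → n ≠ 0 → f (m * n) = f m * f n) ∧ ∀ n, f n = 1 ∨ f n = -1

/-- the frequencies of all words in all short intervals -/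
def Uniform (A E : ℕ) (C : ℝ) (f : ℕ → ℝ) : Prop :=
  ∀ᶠ H : ℕ in atTop, ∀ x k : ℕ, (x : ℝ) ≤ Real.exp (Real.log H ^ E) →
    2 ^ k * Real.exp (C * Real.log (Real.log H) ^ 2) ≤ (H : ℝ) →
      (∀ W : Fin k → Bool, (1 - 1 / Real.log H ^ A) * ((H : ℝ) / 2 ^ k) ≤ occ f W x H) ∧
        ∑ W : Fin k → Bool, |(occ f W x H : ℝ) - (H : ℝ) / 2 ^ k| ≤ 2 * (H / Real.log H ^ A)

/-- the waiting times for all words of length `k` -/
def Waiting (E : ℕ) (C : ℝ) (f : ℕ → ℝ) : Prop :=
  ∀ᶠ k : ℕ in atTop, ∀ x : ℕ, (x : ℝ) ≤ Real.exp ((k : ℝ) ^ E) → ∀ W : Fin k → Bool,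
    ∃ n : ℕ, x < n ∧ (n : ℝ) ≤ x + 2 ^ k * Real.exp (C * Real.log k ^ 2) ∧
      ∀ j : Fin k, f (n + j) = if W j then 1 else -1

lemma sum_occ (f : ℕ → ℝ) (x H k : ℕ) : ∑ W : Fin k → Bool, occ f W x H ≤ H := by
  classical
  unfold occ
  have h1 : ∀ n : ℕ, ((univ : Finset (Fin k → Bool)).filter fun W =>
      ∀ j : Fin k, f (n + j) = if W j then 1 else -1).card ≤ 1 := by
    intro n
    rw [card_le_one]
    intro W hW W' hW'
    rw [mem_filter] at hW hW'
    funext j
    have e1 := hW.2 j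
    have e2 := hW'.2 j
    rw [e1] at e2
    cases h : W j <;> cases h' : W' j <;> rw [h, h'] at e2 <;> norm_num at e2
  have h2 : ∑ W : Fin k → Bool, ((Ioc x (x + H)).filter fun n =>
      ∀ j : Fin k, f (n + j) = if W j then 1 else -1).card =
      ∑ n ∈ Ioc x (x + H), ((univ : Finset (Fin k → Bool)).filter fun W =>
        ∀ j : Fin k, f (n + j) = if W j then 1 else -1).card := by
    simp_rw [card_filter]
    exact sum_comm
  calc ∑ W : Fin k → Bool, ((Ioc x (x + H)).filter fun n =>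
      ∀ j : Fin k, f (n + j) = if W j then 1 else -1).card = _ := h2
    _ ≤ ∑ _n ∈ Ioc x (x + H), 1 := sum_le_sum fun n _ => h1 n
    _ = H := by rw [sum_const, Nat.card_Ioc, smul_eq_mul, mul_one, Nat.add_sub_cancel_left]

lemma log_le (a H : ℕ) (ha : 4 ≤ a) (h2 : H < 2 ^ (a + 1)) (h0 : 1 ≤ H) :
    Real.log H ≤ a := by
  have h3 : Real.log H ≤ Real.log (2 ^ (a + 1)) := by
    refine Real.log_le_log (by exact_mod_cast h0) ?_
    exact_mod_cast h2.le
  rw [Real.log_pow] at h3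
  have h4 := Real.log_two_lt_d9
  have h5 : (4 : ℝ) ≤ a := by exact_mod_cast ha
  push_cast at h3
  nlinarith

theorem uniform_ae (A E : ℕ) : ∃ C : ℝ, 0 < C ∧ ∀ g : ℕ → ℝ, (∀ n, g n = 1 ∨ g n = -1) →
    ∀ᵐ ω ∂cm, Uniform A E C (fun n => g n * ch ω n) := by
  refine ⟨25 * c2 A (E + 2), ?_, fun g hg => ?_⟩
  · unfold c2
    push_cast
    positivity
  filter_upwards [ae_words A (E + 2) (by omega) g hg] with ω hω
  filter_upwards [hω, tendsto_log.eventually_ge_atTop 16, eventually_ge_atTop 1] with H hH ha hH1 x k hx hk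
  set a := Nat.log 2 H with hadef
  set l := Nat.log 2 a + 1 with hl
  have hHR : (0 : ℝ) < H := by exact_mod_cast hH1
  have h2a : 2 ^ a ≤ H := Nat.pow_log_le_self 2 (by omega)
  have h2a' : H < 2 ^ (a + 1) := Nat.lt_pow_succ_log_self (by norm_num) H
  have hLa : Real.log H ≤ a := log_le a H (by omega) h2a' hH1
  have haR : (16 : ℝ) ≤ a := by exact_mod_cast ha
  have hLa2 : (a : ℝ) * Real.log 2 ≤ Real.log H := by
    rw [← Real.log_pow]
    exact Real.log_le_log (by positivity) (by exact_mod_cast h2a)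
  have hl2 := Real.log_two_gt_d9
  have hL3 : (3 : ℝ) < Real.log H := by nlinarith
  have hL0 : 0 < Real.log H := by linarith
  have hLL : 1 ≤ Real.log (Real.log H) := by
    rw [Real.le_log_iff_exp_le hL0]
    have := Real.exp_one_lt_d9
    linarith
  have hx2 : x ≤ 2 ^ (a ^ (E + 2)) := by
    have e1 : (x : ℝ) ≤ Real.exp ((a : ℝ) ^ E) :=
      hx.trans (Real.exp_le_exp.2 (pow_le_pow_left₀ hL0.le hLa _))
    have e2 : Real.exp ((a : ℝ) ^ E) ≤ (2 : ℝ) ^ (2 * a ^ E) := by
      have e3 : Real.exp ((a : ℝ) ^ E) = Real.exp 1 ^ (a ^ E) := by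
        rw [← Real.exp_nat_mul]
        push_cast
        rw [mul_one]
      rw [e3, pow_mul]
      refine pow_le_pow_left₀ (Real.exp_pos 1).le ?_ _
      have := Real.exp_one_lt_d9
      norm_num
      linarith
    have e3 : (2 : ℝ) ^ (2 * a ^ E) ≤ (2 : ℝ) ^ (a ^ (E + 2)) := by
      refine pow_le_pow_right₀ (by norm_num) ?_
      rw [pow_add, mul_comm]
      refine Nat.mul_le_mul_left _ ?_
      nlinarith
    have e4 := (e1.trans e2).trans e3
    exact_mod_cast e4
  have hlR : (l : ℝ) ≤ 5 * Real.log (Real.log H) := by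
    have e1 : 2 ^ (Nat.log 2 a) ≤ a := Nat.pow_log_le_self 2 (by omega)
    have e2 : (2 : ℝ) ^ (Nat.log 2 a) ≤ a := by exact_mod_cast e1
    have e3 : (2 : ℝ) ^ (Nat.log 2 a) * Real.log 2 ≤ Real.log H := by nlinarith
    have e4 := Real.log_le_log (by positivity) e3
    rw [Real.log_mul (by positivity) (by linarith), Real.log_pow] at e4
    have e5 : -1 ≤ Real.log (Real.log 2) := by
      rw [Real.le_log_iff_exp_le (by linarith), Real.exp_neg]
      have := Real.exp_one_gt_d9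
      rw [inv_le_comm₀ (Real.exp_pos 1) (by linarith)]
      refine le_trans ?_ this.le
      rw [inv_le_comm₀ (by linarith) (by norm_num)]
      linarith
    have e6 : ((Nat.log 2 a : ℕ) : ℝ) * Real.log 2 ≤ Real.log (Real.log H) + 1 := by linarith
    rw [hl]
    push_cast
    nlinarith
  have hk2 : 2 ^ (k + c2 A (E + 2) * l ^ 2) ≤ H := by
    have e1 : (2 : ℝ) ^ (c2 A (E + 2) * l ^ 2) ≤
        Real.exp (25 * c2 A (E + 2) * Real.log (Real.log H) ^ 2) := by
      have e2 : (2 : ℝ) ^ (c2 A (E + 2) * l ^ 2) ≤ Real.exp 1 ^ (c2 A (E + 2) * l ^ 2) := by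
        refine pow_le_pow_left₀ (by norm_num) ?_ _
        have := Real.exp_one_gt_d9
        linarith
      refine e2.trans ?_
      rw [← Real.exp_nat_mul, mul_one]
      refine Real.exp_le_exp.2 ?_
      push_cast
      have e3 : (l : ℝ) ^ 2 ≤ 25 * Real.log (Real.log H) ^ 2 := by
        have := pow_le_pow_left₀ (Nat.cast_nonneg l) hlR 2
        calc (l : ℝ) ^ 2 ≤ (5 * Real.log (Real.log H)) ^ 2 := this
          _ = _ := by ring
      have e4 : (0 : ℝ) ≤ c2 A (E + 2) := Nat.cast_nonneg _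
      nlinarith
    have e5 : (2 : ℝ) ^ (k + c2 A (E + 2) * l ^ 2) ≤ H := by
      rw [pow_add]
      exact (mul_le_mul_of_nonneg_left e1 (by positivity)).trans hk
    exact_mod_cast e5
  have hδ : 3 * ((H : ℝ) / 2 ^ ((A + 1) * l)) ≤ H / Real.log H ^ A := by
    have e1 : (a : ℝ) ≤ 2 ^ l := by
      have : a ≤ 2 ^ l := (Nat.lt_pow_succ_log_self (b := 2) (by norm_num) a).le
      exact_mod_cast this
    have e2 : 3 * Real.log H ^ A ≤ (2 : ℝ) ^ ((A + 1) * l) := by
      rw [mul_comm (A + 1) l, pow_mul, pow_succ, mul_comm ((2 ^ l) ^ A : ℝ)]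
      refine mul_le_mul (by linarith) (pow_le_pow_left₀ hL0.le (hLa.trans e1) _) (by positivity)
        (by positivity)
    rw [← mul_div_assoc, div_le_div_iff₀ (by positivity) (by positivity)]
    nlinarith
  have hw : ∀ W : Fin k → Bool, (1 - 1 / Real.log H ^ A) * ((H : ℝ) / 2 ^ k) ≤
      occ (fun n => g n * ch ω n) W x H := by
    intro W
    refine le_trans ?_ (hH x k hx2 hk2 W)
    rw [sub_mul, one_mul, div_mul_div_comm, one_mul, ← div_div, ← sub_div]
    exact div_le_div_of_nonneg_right (by linarith) (by positivity)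
  refine ⟨hw, ?_⟩
  set f := fun n => g n * ch ω n with hf
  set μ : ℝ := (H : ℝ) / 2 ^ k with hμ
  have hcard : (Fintype.card (Fin k → Bool) : ℝ) = 2 ^ k := by
    rw [Fintype.card_fun, Fintype.card_bool, Fintype.card_fin]
    push_cast
    rfl
  have hμk : (2 : ℝ) ^ k * μ = H := by
    rw [hμ]
    field_simp
  have e1 : ∀ W : Fin k → Bool, |(occ f W x H : ℝ) - μ| ≤
      ((occ f W x H : ℝ) - μ) + 2 * (1 / Real.log H ^ A * μ) := by
    intro W
    have h3 := hw W
    have h4 : 0 ≤ 1 / Real.log H ^ A * μ := by positivity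
    rw [abs_le]
    constructor <;> nlinarith
  refine (sum_le_sum fun W _ => e1 W).trans ?_
  rw [sum_add_distrib, sum_sub_distrib, sum_const, sum_const, card_univ, nsmul_eq_mul, nsmul_eq_mul,
    hcard, hμk]
  have h5 : (∑ W : Fin k → Bool, (occ f W x H : ℝ)) ≤ H := by exact_mod_cast sum_occ f x H k
  have h6 : (2 : ℝ) ^ k * (2 * (1 / Real.log H ^ A * μ)) = 2 * (H / Real.log H ^ A) := by
    rw [show (2 : ℝ) ^ k * (2 * (1 / Real.log H ^ A * μ)) = 2 * (1 / Real.log H ^ A) * (2 ^ k * μ) by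
      ring, hμk]
    ring
  linarith

/-- waiting times from frequencies -/
theorem waiting_of (E : ℕ) (C : ℝ) (hC : 0 < C) (f : ℕ → ℝ) (h : Uniform 1 (E + 1) C f) :
    Waiting E (C + 1) f := by
  have hlog : ∀ᶠ k : ℕ in atTop, (C + 1) * Real.log k ^ 2 ≤ (k : ℝ) / 8 := by
    have h1 : Tendsto (fun k : ℕ => Real.log k ^ 2 / (k : ℝ)) atTop (𝓝 0) := by
      have h2 := (Real.isLittleO_pow_log_id_atTop (n := 2)).tendsto_div_nhds_zero
      exact h2.comp tendsto_natCast_atTop_atTop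
    have h2 := h1.eventually (gt_mem_nhds (show (0 : ℝ) < 1 / (8 * (C + 1)) by positivity))
    filter_upwards [h2, eventually_ge_atTop 8] with k hk hk8
    have hk8' : (8 : ℝ) ≤ k := by exact_mod_cast hk8
    rw [div_lt_iff₀ (by linarith)] at hk
    have : (C + 1) * Real.log k ^ 2 ≤ (C + 1) * (1 / (8 * (C + 1)) * k) :=
      mul_le_mul_of_nonneg_left hk.le (by linarith)
    have h3 : (C + 1) * (1 / (8 * (C + 1)) * k) = k / 8 := by field_simp
    linarith
  have hH : Tendsto (fun k : ℕ => ⌊(2 : ℝ) ^ k * Real.exp ((C + 1) * Real.log k ^ 2)⌋₊) atTop atTop := by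
    refine tendsto_nat_floor_atTop.comp ?_
    refine tendsto_atTop_mono (fun k => ?_) (tendsto_pow_atTop_atTop_of_one_lt (show (1 : ℝ) < 2 by norm_num))
    refine le_mul_of_one_le_right (by positivity) ?_
    exact Real.one_le_exp (by positivity)
  unfold Waiting
  filter_upwards [hH.eventually h, hlog, eventually_ge_atTop (max 64 (2 ^ (E + 1)))] with k hk hk8 hkE x hx W
  set H := ⌊(2 : ℝ) ^ k * Real.exp ((C + 1) * Real.log k ^ 2)⌋₊ with hHdef
  have hk64 : 64 ≤ k := (le_max_left _ _).trans hkE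
  have hk64' : (64 : ℝ) ≤ k := by exact_mod_cast hk64
  have hkE' : (2 : ℝ) ^ (E + 1) ≤ k := by exact_mod_cast (le_max_right _ _).trans hkE
  have e2k : (1 : ℝ) ≤ 2 ^ k := one_le_pow₀ (by norm_num)
  have hlogk : 1 ≤ Real.log k := by
    rw [Real.le_log_iff_exp_le (by linarith)]
    have := Real.exp_one_lt_d9
    linarith
  have hHle : (H : ℝ) ≤ 2 ^ k * Real.exp ((C + 1) * Real.log k ^ 2) := Nat.floor_le (by positivity)
  have hHge : 2 ^ k * Real.exp (C * Real.log k ^ 2) ≤ (H : ℝ) := by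
    have e1 := Nat.lt_floor_add_one ((2 : ℝ) ^ k * Real.exp ((C + 1) * Real.log k ^ 2))
    rw [← hHdef] at e1
    have e3 : 1 ≤ Real.exp (C * Real.log k ^ 2) := Real.one_le_exp (by positivity)
    have e4 : 2 ≤ Real.exp (Real.log k ^ 2) := by
      have := Real.add_one_le_exp (Real.log k ^ 2)
      nlinarith
    have e5 : Real.exp ((C + 1) * Real.log k ^ 2) =
        Real.exp (C * Real.log k ^ 2) * Real.exp (Real.log k ^ 2) := by
      rw [← Real.exp_add]
      congr 1
      ring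
    rw [e5] at e1
    have e6 : 1 ≤ 2 ^ k * Real.exp (C * Real.log k ^ 2) := one_le_mul_of_one_le_of_one_le e2k e3
    nlinarith
  have hH2k : (2 : ℝ) ^ k ≤ H := by
    refine le_trans (le_mul_of_one_le_right (by positivity) ?_) hHge
    exact Real.one_le_exp (by positivity)
  have hHpos : (0 : ℝ) < H := lt_of_lt_of_le (by positivity) hH2k
  have hl2 := Real.log_two_gt_d9
  have hl2' := Real.log_two_lt_d9
  have hLH1 : (k : ℝ) / 2 ≤ Real.log H := by
    have e1 := Real.log_le_log (by positivity) hH2k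
    rw [Real.log_pow] at e1
    nlinarith
  have hLH2 : Real.log H ≤ k := by
    have e1 := Real.log_le_log hHpos hHle
    rw [Real.log_mul (by positivity) (Real.exp_pos _).ne', Real.log_pow, Real.log_exp] at e1
    nlinarith
  have hx2 : (x : ℝ) ≤ Real.exp (Real.log H ^ (E + 1)) := by
    refine hx.trans (Real.exp_le_exp.2 ?_)
    calc (k : ℝ) ^ E ≤ ((k : ℝ) / 2) ^ (E + 1) := by
          rw [div_pow, le_div_iff₀ (by positivity), pow_succ]
          exact mul_le_mul_of_nonneg_left hkE' (by positivity)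
      _ ≤ Real.log H ^ (E + 1) := pow_le_pow_left₀ (by positivity) hLH1 _
  have hcond : 2 ^ k * Real.exp (C * Real.log (Real.log H) ^ 2) ≤ (H : ℝ) := by
    refine le_trans ?_ hHge
    have e1 : Real.log (Real.log H) ≤ Real.log k := Real.log_le_log (by linarith) hLH2
    have e2 : 0 ≤ Real.log (Real.log H) := Real.log_nonneg (by linarith)
    have e3 : Real.log (Real.log H) ^ 2 ≤ Real.log k ^ 2 := pow_le_pow_left₀ e2 e1 2
    gcongr
  have hocc := (hk x k hx2 hcond).1 W
  have hpos : (0 : ℝ) < occ f W x H := by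
    refine lt_of_lt_of_le ?_ hocc
    rw [pow_one]
    have e1 : 1 / Real.log H < 1 := by
      rw [div_lt_one (by linarith)]
      linarith
    have e2 : 0 < 1 - 1 / Real.log H := by linarith
    positivity
  have hpos' : 0 < occ f W x H := by exact_mod_cast hpos
  unfold occ at hpos'
  obtain ⟨n, hn⟩ := card_pos.1 hpos'
  rw [mem_filter, mem_Ioc] at hn
  refine ⟨n, hn.1.1, ?_, hn.2⟩
  have e1 : (n : ℝ) ≤ x + H := by exact_mod_cast hn.1.2
  linarith

lemma missing (f : ℕ → ℝ) (x H k : ℕ) (h : H < 2 ^ k) : ∃ W : Fin k → Bool, occ f W x H = 0 := by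
  classical
  by_contra hcon
  push Not at hcon
  have h1 : ∑ _W : Fin k → Bool, 1 ≤ ∑ W : Fin k → Bool, occ f W x H :=
    sum_le_sum fun W _ => Nat.one_le_iff_ne_zero.2 (hcon W)
  rw [sum_const, card_univ, Fintype.card_fun, Fintype.card_bool, Fintype.card_fin, smul_eq_mul,
    mul_one] at h1
  have h2 := sum_occ f x H k
  omega

lemma ch_cm (ω : ℕ → Bool) : CM (ch ω) := by
  refine ⟨Pool.Agent.Q163.RP.mult_one _, fun m n hm hn => ch_mul ω hm hn, fun n => ?_⟩
  rcases abs_eq (by norm_num : (0 : ℝ) ≤ 1) |>.1 (abs_ch ω n) with h | h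
  · exact Or.inl h
  · exact Or.inr h

/-- **Sharp waiting times for all sign patterns of almost every multiplicative function.** -/
theorem result :
    (∀ A E : ℕ, ∃ C : ℝ, 0 < C ∧ ∀ g : ℕ → ℝ, (∀ n, g n = 1 ∨ g n = -1) →
      ∀ᵐ ω ∂cm, ∀ ω' : ℕ → Bool, {p | ω' p ≠ ω p}.Finite → Uniform A E C (fun n => g n * ch ω' n)) ∧
    (∀ E : ℕ, ∃ C : ℝ, 0 < C ∧ ∀ g : ℕ → ℝ, (∀ n, g n = 1 ∨ g n = -1) →
      ∀ᵐ ω ∂cm, ∀ ω' : ℕ → Bool, {p | ω' p ≠ ω p}.Finite → Waiting E C (fun n => g n * ch ω' n)) ∧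
    (∀ (f : ℕ → ℝ) (x H k : ℕ), H < 2 ^ k → ∃ W : Fin k → Bool, occ f W x H = 0) ∧
    (∀ ω, CM (ch ω)) ∧
    ∃ f : ℕ → ℝ, CM f ∧ (∀ A E : ℕ, ∃ C : ℝ, 0 < C ∧ Uniform A E C f) ∧
      ∀ E : ℕ, ∃ C : ℝ, 0 < C ∧ Waiting E C f := by
  have h1 : ∀ A E : ℕ, ∃ C : ℝ, 0 < C ∧ ∀ g : ℕ → ℝ, (∀ n, g n = 1 ∨ g n = -1) →
      ∀ᵐ ω ∂cm, ∀ ω' : ℕ → Bool, {p | ω' p ≠ ω p}.Finite → Uniform A E C (fun n => g n * ch ω' n) := by
    intro A E
    obtain ⟨C, hC, h⟩ := uniform_ae A E
    exact ⟨C, hC, fun g hg => ae_fin (h g hg)⟩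
  refine ⟨h1, ?_, missing, ch_cm, ?_⟩
  · intro E
    obtain ⟨C, hC, h⟩ := h1 1 (E + 1)
    refine ⟨C + 1, by linarith, fun g hg => ?_⟩
    filter_upwards [h g hg] with ω hω ω' hf
    exact waiting_of E C hC _ (hω ω' hf)
  · choose C hC h using h1
    have h2 : ∀ᵐ ω ∂cm, ∀ A E : ℕ, Uniform A E (C A E) (ch ω) := by
      rw [ae_all_iff]
      intro A
      rw [ae_all_iff]
      intro E
      filter_upwards [h A E (fun _ => 1) fun _ => Or.inl rfl] with ω hω
      have h3 := hω ω (by simp)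
      simpa only [one_mul] using h3
    obtain ⟨ω, hω⟩ := h2.exists
    exact ⟨ch ω, ch_cm ω, fun A E => ⟨C A E, hC A E, hω A E⟩,
      fun E => ⟨C 1 (E + 1) + 1, by linarith [hC 1 (E + 1)],
        waiting_of E _ (hC 1 (E + 1)) _ (hω 1 (E + 1))⟩⟩

end Pool.Agent.Results.MP_4fffd4_nt.SharpWaitingTimes
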