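import Pool.Agent.Q132.PT.B
import Pool.Agent.Q132.PT.C
import Pool.Agent.Q132.PT.D

set_option autoImplicit false

/-!
# All patterns on one locally sparse set give all patterns
-/

open Finset Filter Topology

namespace Pool.Agent.Results.MP_4fffd4_nt.SparsePatternsSuffice

open Q132.PT

/-- the Liouville function with values in the group `{1, -1}` -/
def lam (n : ℕ) : ℤˣ := (-1) ^ ArithmeticFunction.cardFactors n

lemma lam_cmul : CMul lam := by
  intro m n hm hn
  unfold lam
  rw [ArithmeticFunction.cardFactors_mul (by omega) (by omega), pow_add]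

lemma lam_coe (n : ℕ) : ((lam n : ℤˣ) : ℤ) = (-1 : ℤ) ^ ArithmeticFunction.cardFactors n := by
  unfold lam
  push_cast
  rfl

lemma lam_eq_iff (n : ℕ) (b : Bool) : lam n = (if b then 1 else -1) ↔
    (-1 : ℤ) ^ ArithmeticFunction.cardFactors n = if b then (1 : ℤ) else -1 := by
  rw [← lam_coe]
  constructor
  · intro h
    rw [h]
    cases b <;> simp
  · intro h
    apply Units.ext
    rw [h]
    cases b <;> simp

lemma full_lam (S : Set ℕ) : Full (fun s => s = ∅) lam S ↔
    ∀ A : Finset ℕ, (A : Set ℕ) ⊆ S → ∀ ε : ℕ → Bool, ∃ m : ℕ, ∀ a ∈ A,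
      (-1 : ℤ) ^ (ArithmeticFunction.cardFactors (m + a + 1)) = (if ε a then (1 : ℤ) else -1) := by
  constructor
  · intro h A hA ε
    have h1 := h A hA fun a => if ε a then 1 else -1
    obtain ⟨m, hm, hw⟩ := Set.nonempty_iff_ne_empty.2 h1
    refine ⟨m - 1, fun a ha => ?_⟩
    rw [show m - 1 + a + 1 = m + a by omega, ← lam_eq_iff]
    exact hw a ha
  · intro h A hA w
    obtain ⟨m, hm⟩ := h A hA fun a => decide (w a = 1)
    apply Set.nonempty_iff_ne_empty.1
    refine ⟨m + 1, by omega, fun a ha => ?_⟩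
    have h1 := hm a ha
    rw [← lam_eq_iff] at h1
    rw [show m + 1 + a = m + a + 1 by omega, h1]
    rcases Int.units_eq_one_or (w a) with h2 | h2 <;> simp [h2]

lemma full_univ : Full (fun s => s = ∅) lam Set.univ ↔
    ∀ n : ℕ, ∀ ε : Fin n → Bool, ∃ m : ℕ, ∀ i : Fin n,
      (-1 : ℤ) ^ (ArithmeticFunction.cardFactors (m + (i : ℕ) + 1)) =
        (if ε i then (1 : ℤ) else -1) := by
  rw [full_lam]
  constructor
  · intro h n ε
    obtain ⟨m, hm⟩ := h (range n) (Set.subset_univ _) fun a => if h : a < n then ε ⟨a, h⟩ else true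
    refine ⟨m, fun i => ?_⟩
    have := hm i (mem_range.2 i.2)
    rwa [dif_pos i.2] at this
  · intro h A _ ε
    obtain ⟨m, hm⟩ := h (A.sup id + 1) fun i => ε i
    exact ⟨m, fun a ha => hm ⟨a, Nat.lt_succ_of_le (le_sup (f := id) ha)⟩⟩

/-- A pattern at the positions `a` is negligible if its set of starting points is in the ideal `I`;
`pat I f a` is the set of the patterns which are not, `Full I f S` says that no pattern on a finite
subset of `S` is negligible, for `I = {∅}` that all of them occur.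

1. An inequality for the number of patterns on `q k` translates of `q b`, with `k` in each class
modulo `q`.
2. Hence: if `N ^ k > q (N - 1) ^ k`, `N = |G| ^ |b|`, and all patterns on this union occur, then
all patterns at the positions `b` occur.
3. For every `ω → ∞` there is an infinite set `S` with at most `max 1 (ω y)` elements in every
interval of length `y` and with gaps tending to infinity, such that for all finite abelian `G`, all
completely multiplicative `f : ℕ → G` and all ideals: `Full I f S ↔ Full I f univ`. In particular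
Q1 (`S16925`) is equivalent to its restriction to patterns on finite subsets of `S`.
4. Ideals: `{∅}`, the finite sets, the sets of natural density zero, of logarithmic density
zero. -/
theorem result :
    (∀ (G : Type) [CommGroup G] [Fintype G] (f : ℕ → G), CMul f → ∀ I : Set ℕ → Prop, Idl I →
      ∀ (β : Type) [Fintype β] (b : β → ℕ) (q k : ℕ) (t : Fin q → Fin k → ℕ), 1 ≤ q →
        (∀ r l, t r l % q = r) →
        (pat I f (pos t b)).ncard ≤
          q * ((pat I f b).ncard ^ k * (Fintype.card G ^ Fintype.card β) ^ (k * (q - 1)))) ∧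
    (∀ (G : Type) [CommGroup G] [Fintype G] (f : ℕ → G), CMul f → ∀ I : Set ℕ → Prop, Idl I →
      ∀ (β : Type) [Fintype β] (b : β → ℕ) (q k : ℕ) (t : Fin q → Fin k → ℕ), 1 ≤ q →
        (∀ r l, t r l % q = r) →
        q * (Fintype.card G ^ Fintype.card β - 1) ^ k < (Fintype.card G ^ Fintype.card β) ^ k →
        (∀ w, ¬ I (occ f (pos t b) w)) → ∀ v, ¬ I (occ f b v)) ∧
    (∀ ω : ℕ → ℕ, Tendsto ω atTop atTop → ∃ S : Set ℕ, S.Infinite ∧
      (∀ x y, (S ∩ Set.Ico x (x + y)).ncard ≤ max 1 (ω y)) ∧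
      (∀ D, {s | s ∈ S ∧ ∃ s' ∈ S, s < s' ∧ s' ≤ s + D}.Finite) ∧
      (∀ (G : Type) [CommGroup G] [Fintype G] (f : ℕ → G), CMul f → ∀ I : Set ℕ → Prop, Idl I →
        (Full I f S ↔ Full I f Set.univ)) ∧
      ((∀ n : ℕ, ∀ ε : Fin n → Bool, ∃ m : ℕ, ∀ i : Fin n,
          (-1 : ℤ) ^ (ArithmeticFunction.cardFactors (m + (i : ℕ) + 1)) =
            (if ε i then (1 : ℤ) else -1)) ↔
        ∀ A : Finset ℕ, (A : Set ℕ) ⊆ S → ∀ ε : ℕ → Bool, ∃ m : ℕ, ∀ a ∈ A,
          (-1 : ℤ) ^ (ArithmeticFunction.cardFactors (m + a + 1)) =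
            (if ε a then (1 : ℤ) else -1))) ∧
    Idl (fun s => s = ∅) ∧ Idl Set.Finite ∧ Idl (Thin (fun _ => 1) fun N => N) ∧
    Idl (Thin (fun n => (n : ℝ)⁻¹) fun N => Real.log N) := by
  refine ⟨fun G _ _ f hf I hI β _ b q k t hq ht => card_pat_le hf hI hq t ht b,
    fun G _ _ f hf I hI β _ b q k t hq ht hk h v => all_of_blocks hf hI hq t ht b hk h v,
    fun ω hω => ?_, idl_empty, idl_finite, idl_nat, idl_log⟩
  obtain ⟨S, h1, h2, h3, h4⟩ := exists_sparse ω hω
  refine ⟨S, h1, h2, h3, fun G _ _ f hf I hI => ⟨full_of_rich hI hf h4,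
    full_mono (Set.subset_univ _)⟩, ?_⟩
  rw [← full_univ, ← full_lam]
  exact ⟨full_mono (Set.subset_univ _), full_of_rich idl_empty lam_cmul h4⟩

end Pool.Agent.Results.MP_4fffd4_nt.SparsePatternsSuffice
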